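import Mathlib
import Pool.Agent.Results.MP_7f377f_mp.SchwingerFunctions

/-!
# Lattice Yang-Mills theory: the law of the transported lattice field strength

Wilson's lattice gauge theory in dimension `d ≥ 3` with gauge group an arbitrary closed subgroup `G`
of `U(N)`, of dimension `n`, at the inverse coupling `β`, on the periodic lattices `(ℤ/l)^d` with
`l ≥ q ^ 8` even and in all their infinite volume limits. The lattice field strength
`F_{jk}(x)`, parallel transported to the origin along an arbitrary path from `0` to `x` of length at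
most `Λ (1 + |x|)`, is smeared with a smooth two-form `φ` with compact support and with values in the
Lie algebra, on the lattice with the spacing `1/q`. As `q → ∞`, uniformly in `β ≥ q ^ (60 d + 88)`, in the
paths, in the volume and in the infinite volume limit, the characteristic functional of the smeared
field converges to that of `n` independent free Maxwell fields on `ℝ^d`, whose variance is the square
of the norm of the projection of `φ` to the exact forms; hence the smeared field of every sequence of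
infinite volume states converges in law to the smeared Maxwell field.
-/

open MeasureTheory Matrix Filter
open scoped Matrix.Norms.Frobenius Topology ContDiff

namespace Pool.Agent.Q126.Withdrawn.GaussianFieldLaw

set_option linter.unusedSectionVars false

open Pool.Agent.H906R3 Pool.Agent.W793
open Pool.Agent.Results.MP_7f377f_mp.SchwingerFunctions (Mt UU mt LieBasis Link LinkZ plaqZ expect
  IsInfVol fm ld expect_eq exists_infVol right_inv inv_inv' mt_cont)

noncomputable section

/-- The end point of the lattice path which starts at `x` and makes the steps `(j, true)`, to the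
next point in the direction `j`, and `(j, false)`, to the preceding point. -/
def endpoint {d : ℕ} : (Fin d → ℤ) → List (Fin d × Bool) → (Fin d → ℤ)
  | x, [] => x
  | x, (i, true) :: p => endpoint (x + Pi.single i 1) p
  | x, (i, false) :: p => endpoint (x - Pi.single i 1) p

section

variable {N n d : ℕ} {G : Subgroup (UU N)}

/-- The product of the link variables along the lattice path which starts at `x`. -/
def transport (V : LinkZ d → G) : (Fin d → ℤ) → List (Fin d × Bool) → G
  | _, [] => 1
  | x, (i, true) :: p => V (x, i) * transport V (x + Pi.single i 1) p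
  | x, (i, false) :: p => (V (x - Pi.single i 1, i))⁻¹ * transport V (x - Pi.single i 1) p

/-- The component `√β Re tr (X_a* U(p) U_{jk}(x) U(p)⁻¹)` of the lattice field strength at `x`,
transported to the origin along the path `p` from `0` to `x`. -/
def strength (B : LieBasis G n) (β : ℝ) (V : LinkZ d → G) (p : List (Fin d × Bool)) (a : Fin n)
    (j k : Fin d) (x : Fin d → ℤ) : ℝ :=
  Real.sqrt β *
    (trace ((B.X a)ᴴ * mt (transport V 0 p * plaqZ V x j k * (transport V 0 p)⁻¹))).re

/-- The field `q ^ (-d / 2) ∑_x (1 / 2) ∑_{j k} ∑_a φ^a_{jk}(x / q) F^a_{jk}(x)`, smeared with the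
two-form `φ` on the lattice with the spacing `1 / q`; `F^a_{jk}(x)` is transported along `p x`. -/
def smeared (B : LieBasis G n) (β : ℝ) (q : ℕ) (φ : Fin n → Fin d → Fin d → (Fin d → ℝ) → ℝ)
    (p : (Fin d → ℤ) → List (Fin d × Bool)) (V : LinkZ d → G) : ℝ :=
  (∑' x : Fin d → ℤ, 1 / 2 * ∑ j, ∑ k, ∑ a, φ a j k (fun i => (x i : ℝ) / q) *
    strength B β V (p x) a j k x) / Real.sqrt ((q : ℝ) ^ d)

end

section

variable {d : ℕ}

/-- Smooth two-forms with compact support. -/
structure TwoForm (φ : Fin d → Fin d → (Fin d → ℝ) → ℝ) : Prop where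
  smooth : ∀ j k, ContDiff ℝ ∞ (φ j k)
  supp : ∀ j k, HasCompactSupport (φ j k)
  asy : ∀ j k x, φ j k x = -φ k j x

/-- Smooth one-forms with compact support. -/
structure OneForm (α : Fin d → (Fin d → ℝ) → ℝ) : Prop where
  smooth : ∀ k, ContDiff ℝ ∞ (α k)
  supp : ∀ k, HasCompactSupport (α k)

/-- The scalar product of two-forms. -/
def scalar (φ ψ : Fin d → Fin d → (Fin d → ℝ) → ℝ) : ℝ :=
  1 / 2 * ∑ j, ∑ k, ∫ x, φ j k x * ψ j k x

/-- The exterior derivative of a one-form. -/
def ext (α : Fin d → (Fin d → ℝ) → ℝ) : Fin d → Fin d → (Fin d → ℝ) → ℝ :=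
  fun j k x => fderiv ℝ (α k) x (Pi.single j 1) - fderiv ℝ (α j) x (Pi.single k 1)

/-- Two-forms with values in the Lie algebra: `n` smooth two-forms with compact support. -/
abbrev Test (n d : ℕ) := {φ : Fin n → Fin d → Fin d → (Fin d → ℝ) → ℝ // ∀ a, TwoForm (φ a)}

/-- Systems of lattice paths `p x` from `0` to `x`, of length at most `Λ (1 + |x|)`. -/
abbrev Paths (d Λ : ℕ) := {p : (Fin d → ℤ) → List (Fin d × Bool) //
  ∀ x, endpoint 0 (p x) = x ∧ (p x).length ≤ Λ * (1 + ∑ i, (x i).natAbs)}

/-- The variance of the free Maxwell field smeared with `φ`: the square of the norm of the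
orthogonal projection of `φ` to the closure of the exact forms `ext α`. -/
def maxwellVar (φ : Fin d → Fin d → (Fin d → ℝ) → ℝ) : ℝ :=
  sSup {v | ∃ α, OneForm α ∧ v = 2 * scalar φ (ext α) - scalar (ext α) (ext α)}

/-- The variance of `n` independent free Maxwell fields smeared with the components of `φ`. -/
def variance {n : ℕ} (φ : Test n d) : ℝ := ∑ a, maxwellVar (φ.1 a)

/-- In the expectation `E` the characteristic function `E exp (i F)` of `F` is `exp (-v / 2)` up to an
error `ε` of its real and imaginary part. -/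
def Near {Ω : Type} (E : (Ω → ℝ) → ℝ) (F : Ω → ℝ) (v ε : ℝ) : Prop :=
  |E (fun V => Real.cos (F V)) - Real.exp (-(v / 2))| ≤ ε ∧ |E (fun V => Real.sin (F V))| ≤ ε

end

section bridge

variable {N n d : ℕ} {G : Subgroup (UU N)}

lemma endpoint_eq (p : List (Fin d × Bool)) : ∀ x, endpoint x p = YM.dest x p := by
  induction p with
  | nil => intro x; rfl
  | cons s p ih =>
    intro x
    obtain ⟨i, b⟩ := s
    cases b
    · simp only [endpoint, YM.dest, ih]
    · simp only [endpoint, YM.dest, ih]

lemma transport_eq (V : LinkZ d → G) (p : List (Fin d × Bool)) :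
    ∀ x, transport V x p = YM.hol V x p := by
  induction p with
  | nil => intro x; rfl
  | cons s p ih =>
    intro x
    obtain ⟨i, b⟩ := s
    cases b
    · simp only [transport, YM.hol, ih]
    · simp only [transport, YM.hol, ih]

lemma strength_eq (B : LieBasis G n) (β : ℝ) (V : LinkZ d → G) (p : List (Fin d × Bool))
    (a : Fin n) (j k : Fin d) (x : Fin d → ℤ) : strength B β V p a j k x =
      -(Real.sqrt β * YM.fi (ld B) a (YM.hol V 0 p * YM.plz V x j k * (YM.hol V 0 p)⁻¹)) := by
  unfold strength YM.fi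
  rw [transport_eq, YM.trX_apply]
  have h2 : (B.X a)ᴴ = -B.X a := (fm B).skewX a
  rw [h2, neg_mul, trace_neg, Complex.neg_re, mul_neg]
  rfl

lemma smeared_eq (B : LieBasis G n) (β : ℝ) (q : ℕ)
    (φ : Fin n → Fin d → Fin d → (Fin d → ℝ) → ℝ) (p : (Fin d → ℤ) → List (Fin d × Bool))
    (V : LinkZ d → G) : smeared B β q φ p V = -(Real.sqrt β * YM.FZs (ld B) φ p q V) := by
  unfold smeared YM.FZs
  simp only [strength_eq]
  rw [← mul_div_assoc, ← neg_div]
  congr 1
  rw [← tsum_mul_left, ← tsum_neg]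
  refine tsum_congr fun x => ?_
  simp only [Finset.mul_sum]
  simp only [← Finset.sum_neg_distrib]
  refine Finset.sum_congr rfl fun j _ => Finset.sum_congr rfl fun k _ =>
    Finset.sum_congr rfl fun a _ => ?_
  ring

lemma maxwellVar_eq (φ : Fin d → Fin d → (Fin d → ℝ) → ℝ) : maxwellVar φ = YM.var φ := by
  unfold maxwellVar YM.var
  congr 1
  ext v
  constructor
  · rintro ⟨α, h, rfl⟩
    exact ⟨α, ⟨h.smooth, h.supp⟩, rfl⟩
  · rintro ⟨α, h, rfl⟩
    exact ⟨α, ⟨h.smooth, h.supp⟩, rfl⟩

lemma smeared_cont [CompactSpace G] [SecondCountableTopology G] [MeasurableSpace G] [BorelSpace G]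
    (B : LieBasis G n) (β : ℝ) {q : ℕ} (hq : 1 ≤ q)
    {φ : Fin n → Fin d → Fin d → (Fin d → ℝ) → ℝ} (hφ : ∀ a, TwoForm (φ a))
    (p : (Fin d → ℤ) → List (Fin d × Bool)) : Continuous (smeared B β q φ p) := by
  have h1 : smeared B β q φ p = fun V => -(Real.sqrt β * YM.FZs (ld B) φ p q V) :=
    funext fun V => smeared_eq B β q φ p V
  rw [h1]
  exact (continuous_const.mul (YM.FZs_cont (L := ld B) p hq fun a =>
    ⟨(hφ a).smooth, (hφ a).supp, (hφ a).asy⟩)).neg

lemma smeared_cont' [CompactSpace G] [SecondCountableTopology G] [MeasurableSpace G]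
    [BorelSpace G] (hd : 3 ≤ d) (B : LieBasis G n) (β : ℝ) (q : ℕ)
    {φ : Fin n → Fin d → Fin d → (Fin d → ℝ) → ℝ} (hφ : ∀ a, TwoForm (φ a))
    (p : (Fin d → ℤ) → List (Fin d × Bool)) : Continuous (smeared B β q φ p) := by
  rcases Nat.eq_zero_or_pos q with h | h
  · subst h
    have h1 : smeared B β 0 φ p = fun _ => 0 := by
      funext V
      unfold smeared
      have : ((0 : ℕ) : ℝ) ^ d = 0 := by
        rw [Nat.cast_zero]
        exact zero_pow (by omega)
      rw [this, Real.sqrt_zero, div_zero]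
    rw [h1]
    exact continuous_const
  · exact smeared_cont B β h hφ p

lemma TwoForm.smul {φ : Fin d → Fin d → (Fin d → ℝ) → ℝ} (h : TwoForm φ) (t : ℝ) :
    TwoForm (fun j k x => t * φ j k x) where
  smooth j k := contDiff_const.mul (h.smooth j k)
  supp j k := (h.supp j k).mul_left
  asy j k x := by rw [h.asy j k x]; ring

lemma OneForm.smul {α : Fin d → (Fin d → ℝ) → ℝ} (h : OneForm α) (t : ℝ) :
    OneForm (fun k x => t * α k x) where
  smooth k := contDiff_const.mul (h.smooth k)
  supp k := (h.supp k).mul_left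

lemma ext_smul {α : Fin d → (Fin d → ℝ) → ℝ} (h : OneForm α) (t : ℝ) :
    ext (fun k x => t * α k x) = fun j k x => t * ext α j k x := by
  funext j k x
  unfold ext
  have h1 : ∀ (k : Fin d), fderiv ℝ (fun x => t * α k x) x = t • fderiv ℝ (α k) x := fun k =>
    fderiv_const_mul ((h.smooth k).differentiable (by simp)).differentiableAt t
  rw [h1 k, h1 j]
  simp only [_root_.smul_apply, smul_eq_mul]
  ring

lemma scalar_smul (φ ψ : Fin d → Fin d → (Fin d → ℝ) → ℝ) (s t : ℝ) :
    scalar (fun j k x => s * φ j k x) (fun j k x => t * ψ j k x) = s * t * scalar φ ψ := by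
  unfold scalar
  have h1 : ∀ j k, ∫ x, s * φ j k x * (t * ψ j k x) = s * t * ∫ x, φ j k x * ψ j k x := by
    intro j k
    rw [← integral_const_mul]
    congr 1
    funext x
    ring
  simp only [h1, ← Finset.mul_sum]
  ring

lemma maxwellVar_smul (φ : Fin d → Fin d → (Fin d → ℝ) → ℝ) (t : ℝ) :
    maxwellVar (fun j k x => t * φ j k x) = t ^ 2 * maxwellVar φ := by
  rcases eq_or_ne t 0 with h | h
  · subst h
    have hs : ∀ ψ : Fin d → Fin d → (Fin d → ℝ) → ℝ,
        scalar (fun j k x => (0 : ℝ) * φ j k x) ψ = 0 := by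
      intro ψ
      unfold scalar
      simp
    have hnn : ∀ ψ : Fin d → Fin d → (Fin d → ℝ) → ℝ, 0 ≤ scalar ψ ψ := by
      intro ψ
      unfold scalar
      refine mul_nonneg (by norm_num) (Finset.sum_nonneg fun j _ => Finset.sum_nonneg fun k _ =>
        integral_nonneg fun x => mul_self_nonneg _)
    rw [zero_pow two_ne_zero, zero_mul]
    unfold maxwellVar
    apply le_antisymm
    · refine csSup_le ?_ ?_
      · exact ⟨_, fun _ _ => 0, ⟨fun k => contDiff_const, fun k => HasCompactSupport.zero⟩, rfl⟩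
      · rintro v ⟨α, hα, rfl⟩
        rw [hs]
        have := hnn (ext α)
        linarith
    · refine le_csSup ⟨0, ?_⟩ ?_
      · rintro v ⟨α, hα, rfl⟩
        rw [hs]
        have := hnn (ext α)
        linarith
      · refine ⟨fun _ _ => 0, ⟨fun k => contDiff_const, fun k => HasCompactSupport.zero⟩, ?_⟩
        rw [hs]
        have : ext (fun (_ : Fin d) (_ : Fin d → ℝ) => (0 : ℝ)) = fun _ _ _ => 0 := by
          funext j k x
          unfold ext
          simp
        rw [this]
        unfold scalar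
        simp
  · have h2 : 0 < t ^ 2 := by positivity
    unfold maxwellVar
    rw [← smul_eq_mul, ← Real.sSup_smul_of_nonneg h2.le]
    congr 1
    ext v
    rw [Set.mem_smul_set]
    constructor
    · rintro ⟨α, hα, rfl⟩
      refine ⟨_, ⟨fun k x => t⁻¹ * α k x, hα.smul _, rfl⟩, ?_⟩
      rw [ext_smul hα, scalar_smul]
      have e1 : scalar φ (fun j k x => t⁻¹ * ext α j k x) = t⁻¹ * scalar φ (ext α) := by
        have := scalar_smul φ (ext α) 1 t⁻¹
        simpa using this
      have e2 : scalar (fun j k x => t * φ j k x) (ext α) = t * scalar φ (ext α) := by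
        have := scalar_smul φ (ext α) t 1
        simpa using this
      rw [e1, e2, smul_eq_mul]
      field_simp
    · rintro ⟨w, ⟨α, hα, rfl⟩, rfl⟩
      refine ⟨fun k x => t * α k x, hα.smul _, ?_⟩
      rw [ext_smul hα, scalar_smul, scalar_smul, smul_eq_mul]
      ring

lemma maxwellVar_nonneg {φ : Fin d → Fin d → (Fin d → ℝ) → ℝ} (h : TwoForm φ) :
    0 ≤ maxwellVar φ := by
  rw [maxwellVar_eq]
  refine le_csSup (YM.var_bdd ⟨h.smooth, h.supp, h.asy⟩) ?_
  refine ⟨fun _ _ => 0, ⟨fun k => contDiff_const, fun k => HasCompactSupport.zero⟩, ?_⟩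
  have h1 : YM.dd (fun (_ : Fin d) (_ : Fin d → ℝ) => (0 : ℝ)) = fun _ _ _ => 0 := by
    funext j k x
    unfold YM.dd YM.pd
    simp
  rw [h1]
  unfold YM.pair
  simp

lemma smeared_smul (B : LieBasis G n) (β : ℝ) (q : ℕ)
    (φ : Fin n → Fin d → Fin d → (Fin d → ℝ) → ℝ) (p : (Fin d → ℤ) → List (Fin d × Bool))
    (t : ℝ) (V : LinkZ d → G) :
    smeared B β q (fun a j k x => t * φ a j k x) p V = t * smeared B β q φ p V := by
  unfold smeared
  rw [← mul_div_assoc, ← tsum_mul_left]
  congr 1
  refine tsum_congr fun x => ?_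
  simp only [Finset.mul_sum]
  refine Finset.sum_congr rfl fun j _ => Finset.sum_congr rfl fun k _ =>
    Finset.sum_congr rfl fun a _ => ?_
  ring

end bridge

section limits

variable {N n d : ℕ} {G : Subgroup (UU N)} [MeasurableSpace G]

/-- The characteristic functional of the field smeared with `φ` is `exp (-v / 2)`, `v = variance φ`, up
to an error `ε`, at the lattice spacing `1 / q` and the inverse coupling `β`, in all even volumes
`l ≥ q ^ 8` and all infinite volume limits, for all systems of paths with the constant `Λ`. -/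
def Limit (μ : Measure G) (B : LieBasis G n) (Λ : ℕ) (φ : Test n d) (ε : ℝ) (q : ℕ) (β : ℝ) :
    Prop :=
  ∀ p : Paths d Λ,
    (∀ (l : ℕ) [NeZero l], Even l → q ^ 8 ≤ l →
      Near (expect l μ β) (smeared B β q φ.1 p.1) (variance φ) ε) ∧
    ∀ ν : Measure (LinkZ d → G), IsInfVol μ β ν →
      Near (fun F => ∫ V, F V ∂ν) (smeared B β q φ.1 p.1) (variance φ) ε

/-- Under the measures `ν j` the fields smeared with `φ`, at the lattice spacings `1 / q j` and the
inverse couplings `β j`, transported along the paths `p j`, converge in law to the centred Gaussian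
random variable with the variance `variance φ`. -/
def LawLimit (B : LieBasis G n) {Λ : ℕ} (φ : Test n d) (q : ℕ → ℕ) (β : ℕ → ℝ)
    (p : ℕ → Paths d Λ) (ν : ℕ → Measure (LinkZ d → G)) : Prop :=
  ∀ f : ℝ → ℝ, Continuous f → (∃ C, ∀ x, |f x| ≤ C) →
    Tendsto (fun j => ∫ V, f (smeared B (β j) (q j) φ.1 (p j).1 V) ∂(ν j)) atTop
      (𝓝 (∫ x, f x ∂(ProbabilityTheory.gaussianReal 0 (variance φ).toNNReal)))

end limits

/-- **The law of the transported lattice field strength.** -/
theorem result {N n d : ℕ} (hd : 3 ≤ d) (G : Subgroup (UU N)) (hG : IsClosed (G : Set (UU N)))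
    [MeasurableSpace G] [BorelSpace G] (μ : Measure G) [IsProbabilityMeasure μ] [μ.IsHaarMeasure]
    (B : LieBasis G n) (Λ : ℕ) (φ : Test n d) :
    (∀ ε : ℝ, 0 < ε → ∃ q₀ : ℕ, ∀ q : ℕ, q₀ ≤ q → ∀ β : ℝ, (q : ℝ) ^ (60 * d + 88) ≤ β →
      Limit μ B Λ φ ε q β) ∧
    (∀ (q : ℕ → ℕ) (β : ℕ → ℝ) (p : ℕ → Paths d Λ) (ν : ℕ → Measure (LinkZ d → G)),
      Tendsto q atTop atTop → (∀ j, (q j : ℝ) ^ (60 * d + 88) ≤ β j) →
      (∀ j, IsInfVol μ (β j) (ν j)) → LawLimit B φ q β p ν) ∧
    ∀ β : ℝ, ∃ ν : Measure (LinkZ d → G), IsInfVol μ β ν := by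
  have : CompactSpace G := by
    have h1 : IsCompact (G : Set (UU N)) := hG.isCompact
    exact isCompact_iff_compactSpace.1 h1
  have h00 : SecondCountableTopology (UU N) := TopologicalSpace.Subtype.secondCountableTopology _
  have : SecondCountableTopology G := TopologicalSpace.Subtype.secondCountableTopology _
  have := right_inv μ
  have := inv_inv' μ
  -- the statements for fixed test forms
  have key : ∀ φ : Fin n → Fin d → Fin d → (Fin d → ℝ) → ℝ, (∀ a, TwoForm (φ a)) →
      ∀ ε : ℝ, 0 < ε → ∃ q₀ : ℕ, ∀ q : ℕ, q₀ ≤ q → ∀ β : ℝ, (q : ℝ) ^ (60 * d + 88) ≤ β →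
      ∀ p : (Fin d → ℤ) → List (Fin d × Bool),
        (∀ x, endpoint 0 (p x) = x ∧ (p x).length ≤ Λ * (1 + ∑ i, (x i).natAbs)) →
        (∀ (l : ℕ) [NeZero l], Even l → q ^ 8 ≤ l →
          |expect l μ β (fun V => Real.cos (smeared B β q φ p V)) -
            Real.exp (-((∑ a, maxwellVar (φ a)) / 2))| ≤ ε ∧
          |expect l μ β (fun V => Real.sin (smeared B β q φ p V))| ≤ ε) ∧
        (∀ ν : Measure (LinkZ d → G), IsInfVol μ β ν →
          |∫ V, Real.cos (smeared B β q φ p V) ∂ν -
            Real.exp (-((∑ a, maxwellVar (φ a)) / 2))| ≤ ε ∧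
          |∫ V, Real.sin (smeared B β q φ p V) ∂ν| ≤ ε) := by
    intro φ hφ ε hε
    obtain ⟨q₀, hq₀⟩ := eventually_atTop.1 (YM.gauss_lim μ (L := ld B) hd Λ
      (φ := φ) (fun a => ⟨(hφ a).smooth, (hφ a).supp, (hφ a).asy⟩) hε)
    refine ⟨max q₀ 1, fun q hq β hβ p hp => ?_⟩
    have hq1 : 1 ≤ q := (le_max_right _ _).trans hq
    have hq0 : q₀ ≤ q := (le_max_left _ _).trans hq
    have hβ0 : 0 ≤ β := le_trans (by positivity) hβ
    obtain ⟨b, hb⟩ : ∃ b, b = Real.sqrt (Real.sqrt β) := ⟨_, rfl⟩
    have hb0 : 0 ≤ b := by rw [hb]; exact Real.sqrt_nonneg _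
    have hb2 : b ^ 2 = Real.sqrt β := by rw [hb]; exact Real.sq_sqrt (Real.sqrt_nonneg _)
    have hb4 : b ^ 4 = β := by
      have : b ^ 4 = (b ^ 2) ^ 2 := by ring
      rw [this, hb2, Real.sq_sqrt hβ0]
    have hqb : (q : ℝ) ^ (15 * d + 22) ≤ b := by
      refine le_of_pow_le_pow_left₀ (n := 4) (by norm_num) hb0 ?_
      rw [hb4, ← pow_mul]
      have : (15 * d + 22) * 4 = 60 * d + 88 := by ring
      rwa [this]
    have hcont := smeared_cont' hd B β q hφ p
    have hfin : ∀ (l : ℕ) [NeZero l], Even l → q ^ 8 ≤ l →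
        |expect l μ β (fun V => Real.cos (smeared B β q φ p V)) -
          Real.exp (-((∑ a, maxwellVar (φ a)) / 2))| ≤ ε ∧
        |expect l μ β (fun V => Real.sin (smeared B β q φ p V))| ≤ ε := by
      intro l _ hl hql
      obtain ⟨m, rfl⟩ := even_iff_two_dvd.1 hl
      have hm0 : NeZero m := ⟨by
        rintro rfl
        exact (NeZero.ne (2 * 0)) rfl⟩
      have h1 := hq₀ q hq0 b hqb m hql p (fun x => by rw [← endpoint_eq]; exact (hp x).1)
        (fun x => (hp x).2)
      have e0 : ∀ a, YM.var (φ a) = maxwellVar (φ a) := fun a => (maxwellVar_eq _).symm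
      simp only [e0] at h1
      rw [hb4, hb2] at h1
      rw [expect_eq μ B, expect_eq μ B]
      have e1 : (fun U : YM.Ed d (2 * m) → G => Real.cos (smeared B β q φ p (YM.lf U))) =
          fun U => Real.cos (Real.sqrt β * YM.FZs (ld B) φ p q (YM.lf U)) := by
        funext U
        rw [smeared_eq, Real.cos_neg]
      have e2 : (fun U : YM.Ed d (2 * m) → G => Real.sin (smeared B β q φ p (YM.lf U))) =
          fun U => -1 * Real.sin (Real.sqrt β * YM.FZs (ld B) φ p q (YM.lf U)) := by
        funext U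
        rw [smeared_eq, Real.sin_neg]
        ring
      rw [e1, e2, YM.EX_smul μ]
      refine ⟨h1.1, ?_⟩
      rw [abs_mul, abs_neg, abs_one, one_mul]
      exact h1.2
    refine ⟨fun l _ => hfin l, fun ν hν => ?_⟩
    obtain ⟨sq, hsq, hlim⟩ := hν.lim
    have hev : ∀ᶠ j in atTop, q ^ 8 ≤ 2 * (sq j + 1) := by
      filter_upwards [hsq.eventually_ge_atTop (q ^ 8)] with j hj
      omega
    constructor
    · refine le_of_tendsto (((hlim _ (Real.continuous_cos.comp hcont)).sub_const
        (Real.exp (-((∑ a, maxwellVar (φ a)) / 2)))).abs) ?_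
      filter_upwards [hev] with j hj
      exact (hfin (2 * (sq j + 1)) (even_two_mul _) hj).1
    · refine le_of_tendsto ((hlim _ (Real.continuous_sin.comp hcont)).abs) ?_
      filter_upwards [hev] with j hj
      exact (hfin (2 * (sq j + 1)) (even_two_mul _) hj).2
  obtain ⟨φ, hφ⟩ := φ
  refine ⟨fun ε hε => ?_, ?_, fun β => exists_infVol μ B β⟩
  · obtain ⟨q₀, h⟩ := key φ hφ ε hε
    exact ⟨q₀, fun q hq β hβ p => h q hq β hβ p.1 p.2⟩
  intro q β p' ν hq hβ hν f hf hfb
  obtain ⟨p, hp'⟩ : ∃ p : ℕ → (Fin d → ℤ) → List (Fin d × Bool), p = fun j => (p' j).1 :=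
    ⟨_, rfl⟩
  have hp : ∀ j x, endpoint 0 (p j x) = x ∧ (p j x).length ≤ Λ * (1 + ∑ i, (x i).natAbs) := by
    intro j x
    rw [hp']
    exact (p' j).2 x
  have hpj : ∀ j, (p' j).1 = p j := fun j => by rw [hp']
  simp only [hpj]
  unfold variance
  have hprob : ∀ j, IsProbabilityMeasure (ν j) := fun j => (hν j).prob
  have hcont : ∀ j, Continuous (smeared B (β j) (q j) φ (p j)) := fun j =>
    smeared_cont' hd B (β j) (q j) hφ (p j)
  have hvar0 : 0 ≤ ∑ a, maxwellVar (φ a) := by
    refine Finset.sum_nonneg fun a _ => ?_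
    exact maxwellVar_nonneg (hφ a)
  let P : ℕ → ProbabilityMeasure ℝ := fun j =>
    ⟨(ν j).map (smeared B (β j) (q j) φ (p j)),
      Measure.isProbabilityMeasure_map (hcont j).aemeasurable⟩
  let P0 : ProbabilityMeasure ℝ :=
    ⟨ProbabilityTheory.gaussianReal 0 (∑ a, maxwellVar (φ a)).toNNReal, inferInstance⟩
  have hP : Tendsto P atTop (𝓝 P0) := by
    refine ProbabilityMeasure.tendsto_of_tendsto_charFun fun t => ?_
    have hφt : ∀ a, TwoForm (fun j k x => t * φ a j k x) := fun a => (hφ a).smul t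
    have e0 : charFun (P0 : Measure ℝ) t =
        ((Real.exp (-((∑ a, maxwellVar (fun j k x => t * φ a j k x)) / 2)) : ℝ) : ℂ) := by
      show charFun (ProbabilityTheory.gaussianReal 0 (∑ a, maxwellVar (φ a)).toNNReal) t = _
      rw [ProbabilityTheory.charFun_gaussianReal]
      simp only [maxwellVar_smul]
      rw [← Finset.mul_sum, Complex.ofReal_exp, Real.coe_toNNReal _ hvar0]
      congr 1
      push_cast
      ring
    have e1 : ∀ j, charFun (P j : Measure ℝ) t =
        ((∫ V, Real.cos (smeared B (β j) (q j) (fun a j k x => t * φ a j k x) (p j) V) ∂(ν j) : ℝ) : ℂ) +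
        ((∫ V, Real.sin (smeared B (β j) (q j) (fun a j k x => t * φ a j k x) (p j) V) ∂(ν j) : ℝ) : ℂ)
          * Complex.I := by
      intro j
      have hc := (hcont j)
      show charFun ((ν j).map (smeared B (β j) (q j) φ (p j))) t = _
      rw [charFun_apply_real, integral_map hc.aemeasurable (by fun_prop)]
      simp only [smeared_smul]
      have i1 : Integrable (fun V => Real.cos (t * smeared B (β j) (q j) φ (p j) V)) (ν j) :=
        (Real.continuous_cos.comp (continuous_const.mul hc)).integrable_of_hasCompactSupport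
          (HasCompactSupport.of_compactSpace _)
      have i2 : Integrable (fun V => Real.sin (t * smeared B (β j) (q j) φ (p j) V)) (ν j) :=
        (Real.continuous_sin.comp (continuous_const.mul hc)).integrable_of_hasCompactSupport
          (HasCompactSupport.of_compactSpace _)
      rw [← integral_complex_ofReal, ← integral_complex_ofReal, ← integral_mul_const, ← integral_add i1.ofReal
        (i2.ofReal.mul_const _)]
      congr 1
      funext V
      rw [← Complex.ofReal_mul, Complex.exp_mul_I, Complex.ofReal_cos, Complex.ofReal_sin]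
    simp only [e1, e0]
    have lim : ∀ (u : ℕ → ℝ) (c : ℝ), (∀ ε : ℝ, 0 < ε → ∃ q₀ : ℕ, ∀ j, q₀ ≤ q j → |u j - c| ≤ ε) →
        Tendsto u atTop (𝓝 c) := by
      intro u c h
      rw [Metric.tendsto_atTop]
      intro ε hε
      obtain ⟨q₀, h1⟩ := h (ε / 2) (by positivity)
      obtain ⟨J, hJ⟩ := eventually_atTop.1 (hq.eventually_ge_atTop q₀)
      refine ⟨J, fun j hj => ?_⟩
      rw [Real.dist_eq]
      exact (h1 j (hJ j hj)).trans_lt (by linarith)
    have l1 : Tendsto (fun j => ∫ V, Real.cos (smeared B (β j) (q j) (fun a j k x => t * φ a j k x)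
        (p j) V) ∂(ν j)) atTop (𝓝 (Real.exp (-((∑ a, maxwellVar (fun j k x => t * φ a j k x)) / 2)))) := by
      refine lim _ _ fun ε hε => ?_
      obtain ⟨q₀, h⟩ := key _ hφt ε hε
      exact ⟨q₀, fun j hj => ((h (q j) hj (β j) (hβ j) (p j) (hp j)).2 (ν j) (hν j)).1⟩
    have l2 : Tendsto (fun j => ∫ V, Real.sin (smeared B (β j) (q j) (fun a j k x => t * φ a j k x)
        (p j) V) ∂(ν j)) atTop (𝓝 0) := by
      refine lim _ _ fun ε hε => ?_
      obtain ⟨q₀, h⟩ := key _ hφt ε hε
      refine ⟨q₀, fun j hj => ?_⟩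
      rw [sub_zero]
      exact ((h (q j) hj (β j) (hβ j) (p j) (hp j)).2 (ν j) (hν j)).2
    have l3 := ((Complex.continuous_ofReal.tendsto _).comp l1).add
      (((Complex.continuous_ofReal.tendsto _).comp l2).mul_const Complex.I)
    simpa using l3
  have h2 := (ProbabilityMeasure.tendsto_iff_forall_integral_tendsto.1 hP)
  obtain ⟨C, hC⟩ := hfb
  have h3 := h2 (BoundedContinuousFunction.ofNormedAddCommGroup f hf C (fun x => by
    rw [Real.norm_eq_abs]; exact hC x))
  simp only [BoundedContinuousFunction.coe_ofNormedAddCommGroup] at h3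
  have e3 : ∀ j, ∫ x, f x ∂(P j : Measure ℝ) =
      ∫ V, f (smeared B (β j) (q j) φ (p j) V) ∂(ν j) := by
    intro j
    show ∫ x, f x ∂((ν j).map (smeared B (β j) (q j) φ (p j))) = _
    rw [integral_map (hcont j).aemeasurable hf.aestronglyMeasurable]
  simp only [e3] at h3
  exact h3

end

end Pool.Agent.Q126.Withdrawn.GaussianFieldLaw
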