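import Pool.Agent.Q126.DL.Asm

/-! Directed graphs which are intrinsically `n`-linked, for every `n`. -/

set_option autoImplicit false
set_option maxHeartbeats 4000000

namespace Pool.Agent.Results.MP_4fe900_gt.EveryNumber

/-- Euclidean three-space. -/
abbrev R3 := EuclideanSpace ℝ (Fin 3)

/-- A directed graph (digraph): a finite set `V` of vertices and a finite set `A` of arcs, each arc
pointing from its source to its target, two different vertices. Several arcs may join the same two
vertices, in the same or in opposite directions. -/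
structure DiGraph where
  V : Type
  A : Type
  finite_V : Finite V
  finite_A : Finite A
  src : A → V
  tgt : A → V
  src_ne_tgt : ∀ e, src e ≠ tgt e

/-- No two arcs join the same two vertices, in the same or in opposite directions. -/
def DiGraph.Simple (D : DiGraph) : Prop :=
  ∀ e f : D.A, s(D.src e, D.tgt e) = s(D.src f, D.tgt f) → e = f

/-- A spatial embedding of a directed graph: distinct points for the vertices and, for each arc, an
injective path from the point of its source to the point of its target, which meet only at common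
endpoints. -/
structure Embedding (D : DiGraph) where
  pos : D.V → R3
  arc : ∀ e : D.A, Path (pos (D.src e)) (pos (D.tgt e))
  pos_injective : Function.Injective pos
  arc_injective : ∀ e, Function.Injective (arc e)
  arc_pos : ∀ e v t, arc e t = pos v → v = D.src e ∨ v = D.tgt e
  arc_arc : ∀ e f, e ≠ f → ∀ s t, arc e s = arc f t →
    ∃ v, (v = D.src e ∨ v = D.tgt e) ∧ (v = D.src f ∨ v = D.tgt f) ∧ arc e s = pos v

/-- The arcs of the nonempty list `L` are, in this cyclic order, the arcs of a consistently oriented
cycle: their sources are different, and the target of each of them is the source of the next. -/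
def IsCycle (D : DiGraph) (L : List D.A) : Prop :=
  L ≠ [] ∧ (L.map D.src).Nodup ∧ L.map D.tgt = (L.map D.src).rotate 1

/-- The image of a cycle. -/
def Embedding.image {D : DiGraph} (E : Embedding D) (L : List D.A) : Set R3 :=
  ⋃ e ∈ L, Set.range (E.arc e)

/-- The link with the components `C i` is nonsplit: for every embedded two-sphere (the image of an
injective continuous map `φ` of the unit sphere) which is disjoint from all the components, all the
components lie in the same connected component of the complement of the two-sphere. -/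
def Nonsplit {n : ℕ} (C : Fin n → Set R3) : Prop :=
  ∀ φ : Metric.sphere (0 : R3) 1 → R3, Continuous φ → Function.Injective φ →
    (∀ i, Disjoint (C i) (Set.range φ)) →
    ∀ i j, ∀ x ∈ C i, ∀ y ∈ C j, y ∈ connectedComponentIn (Set.range φ)ᶜ x

/-- `D` is intrinsically `n`-linked: for every spatial embedding, some `n` pairwise vertex-disjoint
consistently oriented cycles form a nonsplit link. -/
def IntrinsicallyLinked (n : ℕ) (D : DiGraph) : Prop :=
  ∀ E : Embedding D, ∃ L : Fin n → List D.A, (∀ i, IsCycle D (L i)) ∧
    (∀ i j, i ≠ j → List.Disjoint ((L i).map D.src) ((L j).map D.src)) ∧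
    Nonsplit fun i => E.image (L i)

section
open Pool.Agent.Q126.DL

/-- arcs of the subdivided complete symmetric directed graph -/
abbrev AA (W : Type) : Type := {p : W × W // p.1 ≠ p.2} × Bool

/-- vertices of the subdivided complete symmetric directed graph -/
abbrev VV (W : Type) : Type := W ⊕ {p : W × W // p.1 ≠ p.2}

/-- sources -/
def sS {W : Type} : AA W → VV W
  | (e, false) => Sum.inl e.1.1
  | (e, true) => Sum.inr e

/-- targets -/
def sT {W : Type} : AA W → VV W
  | (e, false) => Sum.inr e
  | (e, true) => Sum.inl e.1.2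

/-- the subdivided complete symmetric directed graph -/
def subdiv (W : Type) [Finite W] : DiGraph where
  V := VV W
  A := AA W
  finite_V := inferInstance
  finite_A := inferInstance
  src := sS
  tgt := sT
  src_ne_tgt := by
    rintro ⟨e, b⟩
    cases b <;> simp [sS, sT]

theorem simple_aux {W : Type} (e f : AA W) (h : s(sS e, sT e) = s(sS f, sT f)) : e = f := by
  obtain ⟨e, b⟩ := e
  obtain ⟨f, c⟩ := f
  cases b <;> cases c <;> simp only [sS, sT, Sym2.eq_iff, Sum.inl.injEq, Sum.inr.injEq, reduceCtorEq,
    and_false, or_false, false_or] at h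
  · rw [h.2]
  · obtain ⟨h1, h2⟩ := h
    subst h2
    exact absurd h1 e.2
  · obtain ⟨h2, h1⟩ := h
    subst h2
    exact absurd h1.symm e.2
  · rw [h.1]

theorem subdiv_simple (W : Type) [Finite W] : (subdiv W).Simple := simple_aux

variable {W : Type}

open Classical in
/-- the arcs of the subdivided digraph over a pair of vertices -/
noncomputable def two (d : W × W) : List (AA W) :=
  if h : d.1 ≠ d.2 then [(⟨d, h⟩, false), (⟨d, h⟩, true)] else []

theorem two_eq {d : W × W} (h : d.1 ≠ d.2) : two d = [(⟨d, h⟩, false), (⟨d, h⟩, true)] := dif_pos h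

theorem mem_two {d : W × W} {e : AA W} (h : e ∈ two d) : e.1.1 = d := by
  unfold two at h
  split_ifs at h with hd
  · simp only [List.mem_cons, List.not_mem_nil, or_false] at h
    rcases h with rfl | rfl <;> rfl
  · simp at h

theorem mem_two' {d : W × W} (h : d.1 ≠ d.2) (b : Bool) : ((⟨d, h⟩, b) : AA W) ∈ two d := by
  rw [two_eq h]
  cases b <;> simp

/-- the arcs of the subdivided cycle -/
noncomputable def arcs (l : List W) : List (AA W) := (cdts l).flatMap two

theorem src_tgt (z : W) : ∀ l : List W, (∀ d ∈ dts z l, d.1 ≠ d.2) →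
    ((dts z l).flatMap two).map sS ++ [Sum.inl z] =
      Sum.inl (hd z l) :: ((dts z l).flatMap two).map sT
  | [], _ => by simp [dts, hd]
  | x :: l, h => by
    have h1 : (x, hd z l).1 ≠ (x, hd z l).2 := h (x, hd z l) (by simp [dts])
    have ih := src_tgt z l fun d hd' => h d (by rw [dts]; exact List.mem_cons_of_mem _ hd')
    rw [dts, List.flatMap_cons, two_eq h1]
    simp only [List.cons_append, List.nil_append, List.map_cons]
    rw [ih]
    rfl

theorem mem_src {ds : List (W × W)} {v : VV W}
    (h : v ∈ (ds.flatMap two).map sS) :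
    (∃ d ∈ ds, v = Sum.inl d.1) ∨ ∃ d ∈ ds, ∃ hd : d.1 ≠ d.2, v = Sum.inr ⟨d, hd⟩ := by
  obtain ⟨e, he, rfl⟩ := List.mem_map.mp h
  obtain ⟨d, hd, hed⟩ := List.mem_flatMap.mp he
  have := mem_two hed
  subst this
  obtain ⟨e, b⟩ := e
  cases b
  · left; exact ⟨_, hd, rfl⟩
  · right; exact ⟨_, hd, e.2, rfl⟩

theorem nodup_src (z : W) : ∀ l : List W, l.Nodup → (∀ d ∈ dts z l, d.1 ≠ d.2) →
    (((dts z l).flatMap two).map sS).Nodup
  | [], _, _ => by simp [dts]
  | x :: l, hn, h => by
    rw [List.nodup_cons] at hn
    have h1 : (x, hd z l).1 ≠ (x, hd z l).2 := h (x, hd z l) (by simp [dts])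
    have ih := nodup_src z l hn.2 fun d hd' => h d (by rw [dts]; exact List.mem_cons_of_mem _ hd')
    rw [dts, List.flatMap_cons, two_eq h1]
    simp only [List.cons_append, List.nil_append, List.map_cons, List.nodup_cons]
    refine ⟨?_, ?_, ih⟩
    · intro hm
      rw [List.mem_cons] at hm
      rcases hm with hm | hm
      · exact absurd hm (by simp [sS])
      · rcases mem_src hm with ⟨d, hd', e⟩ | ⟨d, hd', hd'', e⟩
        · have : x = d.1 := Sum.inl.inj e
          exact hn.1 (this ▸ mem_dts_fst z l d hd')
        · exact absurd e (by simp [sS])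
    · intro hm
      rcases mem_src hm with ⟨d, hd', e⟩ | ⟨d, hd', hd'', e⟩
      · exact absurd e (by simp [sS])
      · have e1 := Sum.inr.inj e
        have e2 : (x, hd z l) = d := congrArg Subtype.val e1
        exact hn.1 (by
          have := mem_dts_fst z l d hd'
          rw [← e2] at this
          exact this)

theorem isCycle_arcs [Finite W] {l : List W} (hl : Ok l) : IsCycle (subdiv W) (arcs l) := by
  show arcs l ≠ [] ∧ ((arcs l).map sS).Nodup ∧ (arcs l).map sT = ((arcs l).map sS).rotate 1
  cases l with
  | nil => have := hl.2; simp at this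
  | cons x l =>
    have hne : ∀ d ∈ dts x (x :: l), d.1 ≠ d.2 := fun d hd' => cdts_ne hl hd'
    have h1 := src_tgt x (x :: l) hne
    have h2 := nodup_src x (x :: l) hl.1 hne
    change (arcs (x :: l)).map sS ++ [Sum.inl x] = Sum.inl x :: (arcs (x :: l)).map sT at h1
    change ((arcs (x :: l)).map sS).Nodup at h2
    refine ⟨?_, h2, ?_⟩
    · intro h0
      have h3 : arcs (x :: l) = two (x, hd x l) ++ (dts x l).flatMap two := rfl
      have h4 : (x, hd x l).1 ≠ (x, hd x l).2 := hne _ (by simp [dts])
      rw [two_eq h4] at h3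
      rw [h3] at h0
      simp at h0
    · cases hs : (arcs (x :: l)).map sS with
      | nil =>
        rw [hs] at h1
        simp only [List.nil_append] at h1
        have := congrArg List.length h1
        simp at this
        rw [this]
        rfl
      | cons y ys =>
        rw [hs] at h1
        rw [List.cons_append] at h1
        obtain ⟨e1, e2⟩ := List.cons.inj h1
        rw [← e2, e1]
        simp [List.rotate_cons_succ]

theorem disjoint_arcs {l l' : List W} (h : List.Disjoint l l') :
    List.Disjoint ((arcs l).map sS) ((arcs l').map sS) := by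
  intro v h1 h2
  rcases mem_src h1 with ⟨d, hd', e⟩ | ⟨d, hd', hd'', e⟩ <;>
    rcases mem_src h2 with ⟨f, hf, e'⟩ | ⟨f, hf, hf'', e'⟩ <;> rw [e] at e'
  · have e2 : d.1 = f.1 := Sum.inl.inj e'
    exact h (cdts_mem hd').1 (e2 ▸ (cdts_mem hf).1)
  · exact absurd e' (by simp)
  · exact absurd e' (by simp)
  · have e2 : d = f := congrArg Subtype.val (Sum.inr.inj e')
    subst e2
    exact h (cdts_mem hd').1 (cdts_mem hf).1


theorem ends {e : AA W} {v : VV W} (h : v = sS e ∨ v = sT e) :
    v = Sum.inl e.1.1.1 ∨ v = Sum.inl e.1.1.2 ∨ v = Sum.inr e.1 := by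
  obtain ⟨e, b⟩ := e
  cases b
  · rcases h with h | h
    · exact Or.inl h
    · exact Or.inr (Or.inr h)
  · rcases h with h | h
    · exact Or.inr (Or.inr h)
    · exact Or.inr (Or.inl h)

variable [Finite W] (E : Embedding (subdiv W))

/-- the point of a vertex -/
def ps' (v : VV W) : R3 := E.pos v

/-- the path of an arc -/
def pa (e : AA W) : Path (ps' E (sS e)) (ps' E (sT e)) := E.arc e

open Classical in
/-- the path over an ordered pair of vertices -/
noncomputable def bigArc (a b : W) : Path (ps' E (Sum.inl a)) (ps' E (Sum.inl b)) :=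
  if h : a ≠ b then (pa E (⟨(a, b), h⟩, false)).trans (pa E (⟨(a, b), h⟩, true))
  else (Path.refl _).cast rfl (by rw [not_not.mp h])

theorem range_bigArc {a b : W} (h : a ≠ b) : Set.range (bigArc E a b) =
    Set.range (pa E (⟨(a, b), h⟩, false)) ∪ Set.range (pa E (⟨(a, b), h⟩, true)) := by
  have : bigArc E a b = (pa E (⟨(a, b), h⟩, false)).trans (pa E (⟨(a, b), h⟩, true)) := dif_pos h
  rw [this]
  exact Path.trans_range _ _

theorem bigArc_dis {a b c d : W} (hab : a ≠ b) (hcd : c ≠ d) (h1 : a ≠ c) (h2 : a ≠ d) (h3 : b ≠ c)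
    (h4 : b ≠ d) (s t : unitInterval) : bigArc E a b s ≠ bigArc E c d t := by
  intro hst
  have key : ∀ (e f : AA W), e.1.1 = (a, b) → f.1.1 = (c, d) → ∀ s t, pa E e s ≠ pa E f t := by
    intro e f he hf s t hh
    have hef : e.1 ≠ f.1 := by
      intro h
      rw [h] at he
      rw [he] at hf
      exact h1 (Prod.mk.inj hf).1
    have hef' : e ≠ f := fun h => hef (by rw [h])
    obtain ⟨v, hv1, hv2, _⟩ := E.arc_arc e f hef' s t hh
    have v1 := ends hv1
    have v2 := ends hv2
    rw [he] at v1
    rw [hf] at v2
    rcases v1 with rfl | rfl | rfl <;> rcases v2 with h | h | h <;>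
      first
        | exact h1 (Sum.inl.inj h)
        | exact h2 (Sum.inl.inj h)
        | exact h3 (Sum.inl.inj h)
        | exact h4 (Sum.inl.inj h)
        | exact hef (Sum.inr.inj h)
        | exact absurd h (by simp)
  have m1 : bigArc E a b s ∈ Set.range (bigArc E a b) := ⟨s, rfl⟩
  have m2 : bigArc E a b s ∈ Set.range (bigArc E c d) := ⟨t, hst.symm⟩
  rw [range_bigArc E hab] at m1
  rw [range_bigArc E hcd] at m2
  rcases m1 with ⟨s', h5⟩ | ⟨s', h5⟩ <;> rcases m2 with ⟨t', h6⟩ | ⟨t', h6⟩ <;>
    exact key _ _ rfl rfl s' t' (h5.trans h6.symm)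

/-- the data of an embedding -/
noncomputable def dat : Dat W where
  pos := fun a => ps' E (Sum.inl a)
  arc := fun a b => bigArc E a b
  dis := fun _ _ _ _ hab hcd h1 h2 h3 h4 s t => bigArc_dis E hab hcd h1 h2 h3 h4 s t

theorem image_arcs {l : List W} (hl : Ok l) : E.image (arcs l) = img (dat E) l := by
  have hne : ∀ d ∈ cdts l, d.1 ≠ d.2 := fun d hd' => cdts_ne hl hd'
  have e0 : E.image (arcs l) = ⋃ e ∈ arcs l, Set.range (pa E e) := rfl
  rw [e0]
  unfold img
  ext p
  simp only [Set.mem_iUnion, exists_prop]
  constructor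
  · rintro ⟨e, he, hp⟩
    obtain ⟨d, hd', he'⟩ := List.mem_flatMap.mp he
    have := mem_two he'
    subst this
    refine ⟨_, hd', ?_⟩
    have h1 := range_bigArc E (hne _ hd')
    show p ∈ Set.range (bigArc E e.1.1.1 e.1.1.2)
    rw [h1]
    obtain ⟨e, b⟩ := e
    cases b
    · left; exact hp
    · right; exact hp
  · rintro ⟨d, hd', hp⟩
    have h1 := range_bigArc E (hne _ hd')
    change p ∈ Set.range (bigArc E d.1 d.2) at hp
    rw [h1] at hp
    rcases hp with hp | hp
    · exact ⟨_, List.mem_flatMap.mpr ⟨d, hd', mem_two' (hne d hd') false⟩, hp⟩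
    · exact ⟨_, List.mem_flatMap.mpr ⟨d, hd', mem_two' (hne d hd') true⟩, hp⟩

end

open Pool.Agent.Q126.DL in
/-- For every `n ≥ 2` there is an intrinsically `n`-linked directed graph; it can be chosen such that
no two of its arcs join the same two vertices. -/
theorem result (n : ℕ) (hn : 2 ≤ n) : ∃ D : DiGraph, D.Simple ∧ IntrinsicallyLinked n D := by
  obtain ⟨m, B, h⟩ := comb (n - 1) (by omega)
  refine ⟨subdiv (Fin m × Fin B), subdiv_simple _, ?_⟩
  intro E
  obtain ⟨S⟩ := exists_scale (dat E)
  obtain ⟨c, F, hF, hdis, hok, hlk⟩ := h (L2 S) (conway_gordon S)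
  have hlen : (c :: F).length = n := by rw [List.length_cons, hF]; omega
  refine ⟨fun i => arcs ((c :: F).get (i.cast hlen.symm)), ?_, ?_, ?_⟩
  · intro i
    exact isCycle_arcs (hok _ (List.get_mem _ _))
  · intro i j hij
    apply disjoint_arcs
    rcases lt_or_gt_of_ne hij with h1 | h1
    · exact List.pairwise_iff_get.mp hdis _ _ (by simpa using h1)
    · exact (List.pairwise_iff_get.mp hdis _ _ (by simpa using h1)).symm
  · intro φ hφ hi hd i j x hx y hy
    have e : ∀ i : Fin n, E.image (arcs ((c :: F).get (i.cast hlen.symm))) =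
        img (dat E) ((c :: F).get (i.cast hlen.symm)) := fun i =>
      image_arcs E (hok _ (List.get_mem _ _))
    simp only at hd hx hy
    rw [e] at hx hy
    refine star_nonsplit S hdis hok hlk φ hφ hi ?_ (List.get_mem _ _) (List.get_mem _ _) hx hy
    intro l hl
    obtain ⟨k, rfl⟩ := List.mem_iff_get.mp hl
    have := hd (k.cast hlen)
    rw [e] at this
    exact this

end Pool.Agent.Results.MP_4fe900_gt.EveryNumber
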