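import Pool.Agent.Q126.NS.Sharp

/-!
# One point suffices: the maximal speed, the maximal vorticity and the extreme rates of strain before
a singularity of the Navier-Stokes equations

Let `(u, p)` be a smooth periodic solution of the three-dimensional Navier-Stokes equations on
`[0, T)`. It is enough to know, for almost every time, what happens at *one* point where the speed,
the vorticity, or the rate of strain is extreme, and the viscous terms are kept.

* Maximal speed. `u` is bounded if at one point of maximal speed the pressure accelerates the fluid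
  at most at the rate `ν |∇u|² / |u|² + ρ(t)`, `∫ exp (2 ∫ ρ) dt < ∞`; for instance
  `ρ = κ / (T - t)`, `κ < 1/2`.
* Maximal vorticity. `u` is bounded if at one point of maximal vorticity the stretching rate is at
  most `ν |∇ω|² / |ω|² + ρ(t)`, `∫ exp (∫ ρ) dt < ∞`; for instance `ρ = κ / (T - t)`, `κ < 1`.
* Let `-λ(t)` be the least rate of strain, `S` the rate-of-strain matrix. If at one point of
  strongest compression, in its direction `e`,
  `e · (D²p) e ≤ |ω × e|² / 4 + 2 ν |(∇S) e|² / (3 λ) + (θ - 1) λ² + c / (T - t)²`, `4 θ c < 1`,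
  and `T` is a singular time, then `λ(s) ≥ (1 + √(1 - 4 θ c)) / (2 θ (T - s))`. The same for the
  strongest stretching.

The viscous gain `2 ν |(∇S) e|² / (3 λ)` comes from the second variation of the extreme rate of
strain in which the point moves and the direction turns at the same time. The constant `1`
(vorticity) and the thresholds for the rates of strain are attained by solutions which are linear in
`x` (smooth solutions on `[0, T) × ℝ³`, with every viscosity, but not periodic).
-/

set_option autoImplicit false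

open MeasureTheory Set H459R3.NS Pool.Agent.W268.NS Pool.Agent.Q126.NS

namespace Pool.Agent.Q126.Withdrawn.OnePointCriteria

/-- `u` is bounded on `[0, T) × ℝ³` (so that `T` is not a singular time). -/
def Bdd (T : ℝ) (u : ℝ → V → V) : Prop := ∃ M, ∀ t ∈ Ico 0 T, ∀ x i, |u t x i| ≤ M

/-- `u t` is linear for every `t`. -/
def Linear (u : ℝ → V → V) : Prop :=
  ∀ t, ∃ A : Matrix (Fin 3) (Fin 3) ℝ, ∀ x, u t x = A.mulVec x

/-- The vorticity of `u t` has the length `(T - t)^(-α)` everywhere; for `α ≥ 1` it is not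
integrable in time. -/
def VortRate (T α : ℝ) (u : ℝ → V → V) : Prop :=
  ∀ t ∈ Ico 0 T, ∀ x, vortSq (u t) x = ((T - t) ^ (-α)) ^ 2

/-- (1) The criteria. Let `ν > 0`, `(u, p)` a smooth `1`-periodic solution on `[0, T)`,
`0 < s < T`. (a), (b) Let `ρ ≥ 0` be locally integrable on `[s, T)`, and let the condition for the
speed, or for the vorticity, hold with `ρ(t)` at one maximum point for almost every `t ∈ (s, T)`. If
`exp (2 ∫ₛᵗ ρ)`, respectively `exp (∫ₛᵗ ρ)`, is integrable on `(s, T)`, then `u` is bounded.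
(c), (d) Let `θ > 0`, `c ≥ 0`, `4 θ c < 1` and let `u` be unbounded. If
`1 - √(1 - 4 θ c) < θ` (`< 2 θ`) and the condition at one point of strongest compression
(stretching) holds with `μ(t) = c / (T - t)²` for almost every `t ∈ (s, T)`, then the strongest
compression (stretching) at the time `s` is at least `(1 + √(1 - 4 θ c)) / (2 θ (T - s))`.
(2) The thresholds are sharp for solutions which are linear in `x`, for every viscosity: there are
such solutions with vorticity `(T - t)^(-κ)` satisfying the condition of (b) with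
`ρ = κ / (T - t)`, for every `κ`; and if `θ ≤ 1 + √(1 - 4 θ c)` (`2 θ ≤ 1 + √(1 - 4 θ c)`), there are
such solutions, with vorticity `(T - t)^(-α)`, `α ≥ 1`, satisfying the condition of (c) (of (d)) at
all times, for which the compression (stretching) never exceeds the threshold. -/
theorem result :
    (∀ (ν T s : ℝ) (u : ℝ → V → V) (p : ℝ → V → ℝ), 0 < ν → IsSol ν T u p → s ∈ Ioo 0 T →
      (∀ ρ : ℝ → ℝ, (∀ t ∈ Ioo s T, 0 ≤ ρ t) →
        (∀ t ∈ Ioo s T, IntervalIntegrable ρ volume s t) →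
        (IntegrableOn (fun t => Real.exp (2 * ∫ r in s..t, ρ r)) (Ioo s T) →
          (∀ᵐ t, t ∈ Ioo s T → CondSpeed ν (ρ t) (u t) (p t)) → Bdd T u) ∧
        (IntegrableOn (fun t => Real.exp (∫ r in s..t, ρ r)) (Ioo s T) →
          (∀ᵐ t, t ∈ Ioo s T → CondVort ν (ρ t) (u t)) → Bdd T u)) ∧
      ∀ θ c : ℝ, 0 < θ → 0 ≤ c → 4 * θ * c < 1 → ¬ Bdd T u →
        (1 - Real.sqrt (1 - 4 * θ * c) < θ →
          (∀ᵐ t, t ∈ Ioo s T → CondC ν θ (c / (T - t) ^ 2) (u t) (p t)) →
          ∃ x e, MostCompressed (u s) x e ∧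
            rate (u s) x e ≤ -((1 + Real.sqrt (1 - 4 * θ * c)) / (2 * θ * (T - s)))) ∧
        (1 - Real.sqrt (1 - 4 * θ * c) < 2 * θ →
          (∀ᵐ t, t ∈ Ioo s T → CondS ν θ (c / (T - t) ^ 2) (u t) (p t)) →
          ∃ x e, MostStretched (u s) x e ∧
            (1 + Real.sqrt (1 - 4 * θ * c)) / (2 * θ * (T - s)) ≤ rate (u s) x e)) ∧
    ∀ ν T : ℝ,
      (∀ κ : ℝ, ∃ u p, IsSpaceSol ν T u p ∧ Linear u ∧
        (∀ t ∈ Ico 0 T, CondVort ν (κ / (T - t)) (u t)) ∧ VortRate T κ u) ∧
      ∀ θ c : ℝ, 0 < θ → 4 * θ * c < 1 →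
        (θ ≤ 1 + Real.sqrt (1 - 4 * θ * c) → ∃ u p, ∃ α : ℝ, IsSpaceSol ν T u p ∧ Linear u ∧
          (∀ t ∈ Ico 0 T, CondC ν θ (c / (T - t) ^ 2) (u t) (p t)) ∧
          (∀ t ∈ Ico 0 T, ∀ x e, Unit e →
            -((1 + Real.sqrt (1 - 4 * θ * c)) / (2 * θ * (T - t))) ≤ rate (u t) x e) ∧
          1 ≤ α ∧ VortRate T α u) ∧
        (2 * θ ≤ 1 + Real.sqrt (1 - 4 * θ * c) → ∃ u p, ∃ α : ℝ, IsSpaceSol ν T u p ∧ Linear u ∧
          (∀ t ∈ Ico 0 T, CondS ν θ (c / (T - t) ^ 2) (u t) (p t)) ∧
          (∀ t ∈ Ico 0 T, ∀ x e, Unit e →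
            rate (u t) x e ≤ (1 + Real.sqrt (1 - 4 * θ * c)) / (2 * θ * (T - t))) ∧
          1 ≤ α ∧ VortRate T α u) := by
  refine ⟨fun ν T s u p hν h hs => ⟨fun ρ hρ0 hρ => ⟨fun hi hc => crit_speed hν h hs hρ0 hρ hi hc,
      fun hi hc => crit_vort hν h hs hρ0 hρ hi hc⟩, fun θ c hθ hc h4 hsing =>
      ⟨fun hlt hcond => crit_C hθ hc h4 hlt hν h hs hcond hsing,
        fun hlt hcond => crit_S hθ hc h4 hlt hν h hs hcond hsing⟩⟩,
    fun ν T => ⟨fun κ => sharpV ν T, fun θ c hθ h4 => ⟨fun hle => sharpC' ν T hθ h4 hle,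
      fun hle => sharpS' ν T hθ h4 hle⟩⟩⟩

end Pool.Agent.Q126.Withdrawn.OnePointCriteria
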